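import Mathlib

/-!
# Alternating quotients of generalized triangle groups: the second question has a negative answer

For the distinct primes `2, 3, 5` and for infinitely many commutator words `u` in three
variables, `n = 5` is the only admissible degree.
-/

namespace Pool.Agent.Results.MP_73c65d_al.OnlyDegreeFive

/-- `n` is admissible for `p, q, r, u`: the alternating group of degree `n` is generated by
elements `ξ, η, ζ` with `ξ ^ p = η ^ q = ζ ^ r = ξ η ζ u(ξ, η, ζ) = 1`. -/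
def Admissible (p q r : ℕ) (u : FreeGroup (Fin 3)) (n : ℕ) : Prop :=
  ∃ ξ η ζ : alternatingGroup (Fin n),
    Subgroup.closure {ξ, η, ζ} = ⊤ ∧ ξ ^ p = 1 ∧ η ^ q = 1 ∧ ζ ^ r = 1 ∧
      ξ * η * ζ * FreeGroup.lift ![ξ, η, ζ] u = 1

/-! ### A finite group with `c⁻¹ a c = a²`, `c` conjugate to `a` -/

theorem pow_conj {G : Type*} [Group G] (a c : G) (h : c⁻¹ * a * c = a ^ 2) (k : ℕ) :
    (c ^ k)⁻¹ * a * c ^ k = a ^ (2 ^ k) := by
  induction k with
  | zero => simp
  | succ k ih =>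
    have e : (c ^ (k + 1))⁻¹ * a * c ^ (k + 1) = c⁻¹ * ((c ^ k)⁻¹ * a * c ^ k) * c := by
      rw [pow_succ]; group
    rw [e, ih]
    have e2 : c⁻¹ * a ^ 2 ^ k * c = (c⁻¹ * a * c) ^ 2 ^ k := by
      have := conj_pow (a := c⁻¹) (b := a) (i := 2 ^ k)
      simpa using this.symm
    rw [e2, h, ← pow_mul, pow_succ, mul_comm]

theorem eq_one_of_conj {G : Type*} [Group G] [Finite G] (a b : G)
    (h : (b⁻¹ * a * b)⁻¹ * a * (b⁻¹ * a * b) = a ^ 2) : a = 1 := by
  by_contra hne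
  have h1 := pow_conj a (b⁻¹ * a * b) h (orderOf a)
  have h2 : (b⁻¹ * a * b) ^ orderOf a = 1 := by
    have := conj_pow (a := b⁻¹) (b := a) (i := orderOf a)
    rw [inv_inv] at this
    rw [this, pow_orderOf_eq_one]; group
  rw [h2] at h1
  simp only [inv_one, one_mul, mul_one] at h1
  -- `a = a ^ (2 ^ m)`
  have hm : orderOf a ≠ 1 := fun hh => hne (orderOf_eq_one_iff.mp hh)
  have hpos : 0 < orderOf a := orderOf_pos a
  set m := orderOf a with hmdef
  have hprime : (Nat.minFac m).Prime := Nat.minFac_prime hm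
  have : Fact (Nat.minFac m).Prime := ⟨hprime⟩
  have hdvd : (m : ℤ) ∣ (2 ^ m - 1 : ℤ) := by
    rw [hmdef, orderOf_dvd_iff_zpow_eq_one]
    have h3 : a ^ (2 ^ m - 1 : ℤ) = a ^ (2 ^ m : ℤ) * a⁻¹ := by
      rw [zpow_sub, zpow_one]
    have h4 : a ^ (2 ^ m : ℤ) = a ^ (2 ^ m : ℕ) := by
      rw [← zpow_natCast]; push_cast; rfl
    rw [h3, h4, ← h1, mul_inv_cancel]
  have hd2 : ((Nat.minFac m : ℕ) : ℤ) ∣ (2 ^ m - 1 : ℤ) :=
    (Int.natCast_dvd_natCast.mpr (Nat.minFac_dvd m)).trans hdvd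
  have hz : ((2 : ZMod (Nat.minFac m)) ^ m) = 1 := by
    have := (ZMod.intCast_zmod_eq_zero_iff_dvd (2 ^ m - 1 : ℤ) (Nat.minFac m)).mpr hd2
    push_cast at this
    exact sub_eq_zero.mp this
  have hne2 : (2 : ZMod (Nat.minFac m)) ≠ 0 := by
    intro h0
    rw [h0, zero_pow hpos.ne'] at hz
    exact zero_ne_one hz
  have hord1 : orderOf (2 : ZMod (Nat.minFac m)) ∣ m := orderOf_dvd_of_pow_eq_one hz
  have hord2 : orderOf (2 : ZMod (Nat.minFac m)) ∣ Nat.minFac m - 1 :=
    orderOf_dvd_of_pow_eq_one (ZMod.pow_card_sub_one_eq_one hne2)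
  have hone : orderOf (2 : ZMod (Nat.minFac m)) = 1 := by
    by_contra hcon
    have hle : Nat.minFac m ≤ Nat.minFac (orderOf (2 : ZMod (Nat.minFac m))) :=
      Nat.minFac_le_of_dvd (Nat.minFac_prime hcon).two_le
        ((Nat.minFac_dvd _).trans hord1)
    have hle2 : Nat.minFac (orderOf (2 : ZMod (Nat.minFac m))) ≤ Nat.minFac m - 1 :=
      Nat.le_of_dvd (Nat.sub_pos_of_lt hprime.one_lt) ((Nat.minFac_dvd _).trans hord2)
    have := hprime.one_lt
    omega
  have h21 : (2 : ZMod (Nat.minFac m)) = 1 := orderOf_eq_one_iff.mp hone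
  have : (1 : ZMod (Nat.minFac m)) = 0 := by
    have h5 : (2 : ZMod (Nat.minFac m)) - 1 = 0 := by rw [h21, sub_self]
    have h6 : (2 : ZMod (Nat.minFac m)) - 1 = 1 := by ring
    rw [h6] at h5; exact h5
  exact one_ne_zero this

/-! ### The icosahedral triangle group has order at most `60` -/

section Icosa

variable {G : Type*} [Group G] (s t : G)

/-- Twelve coset representatives. -/
def rep (s t : G) : Fin 12 → G :=
  ![1, s, s * t, s * t * t, s * t⁻¹ * t⁻¹, s * t⁻¹, s * t * t * s, s * t⁻¹ * t⁻¹ * s,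
    s * t⁻¹ * t⁻¹ * s * t, s * t⁻¹ * t⁻¹ * s * t * t, s * t * t * s * t⁻¹,
    s * t⁻¹ * t⁻¹ * s * t * t * s]

theorem card_le (hs : s * s = 1) (ht : t * t * t * t * t = 1)
    (hst : s * t * s * t * s * t = 1) (hcl : Subgroup.closure {s, t} = ⊤) :
    Nat.card G ≤ 60 := by
  have hsi : s⁻¹ = s := inv_eq_of_mul_eq_one_left hs
  have r3 : t * t * t = t⁻¹ * t⁻¹ := by
    calc t * t * t = (t * t * t * t * t) * (t⁻¹ * t⁻¹) := by simp [mul_assoc]
      _ = t⁻¹ * t⁻¹ := by rw [ht, one_mul]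
  have r3' : t⁻¹ * t⁻¹ * t⁻¹ = t * t := by
    calc t⁻¹ * t⁻¹ * t⁻¹ = (t * t * t * t * t)⁻¹ * (t * t) := by simp [mul_assoc]
      _ = t * t := by rw [ht, inv_one, one_mul]
  have r4 : t * s * t = s * t⁻¹ * s := by
    calc t * s * t = s⁻¹ * (s * t * s * t * s * t) * (t⁻¹ * s⁻¹) := by group
      _ = s⁻¹ * t⁻¹ * s⁻¹ := by rw [hst]; group
      _ = s * t⁻¹ * s := by rw [hsi]
  have r5 : s * t * s = t⁻¹ * s * t⁻¹ := by
    calc s * t * s = (s * t * s * t * s * t) * (t⁻¹ * s⁻¹ * t⁻¹) := by group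
      _ = t⁻¹ * s⁻¹ * t⁻¹ := by rw [hst, one_mul]
      _ = t⁻¹ * s * t⁻¹ := by rw [hsi]
  have e6 : s * t * t * s * t = t⁻¹ * (s * t⁻¹ * t⁻¹ * s) := by
    calc s * t * t * s * t = s * t * (t * s * t) := by group
      _ = (s * t * s) * t⁻¹ * s := by rw [r4]; group
      _ = t⁻¹ * (s * t⁻¹ * t⁻¹ * s) := by rw [r5]; group
  have e9 : s * t⁻¹ * t⁻¹ * s * t * t * t = t * (s * t * t * s * t⁻¹) := by
    calc s * t⁻¹ * t⁻¹ * s * t * t * t = t * (t⁻¹ * (s * t⁻¹ * t⁻¹ * s)) * (t * t * t) := by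
          group
      _ = t * (s * t * t * s * t) * (t⁻¹ * t⁻¹) := by rw [r3, ← e6]
      _ = t * (s * t * t * s * t⁻¹) := by group
  have e11a : s * t⁻¹ * t⁻¹ * s * t * t * s * t = s * t * t * s * t⁻¹ * t⁻¹ * s := by
    calc s * t⁻¹ * t⁻¹ * s * t * t * s * t = s * t⁻¹ * t⁻¹ * s * t * (t * s * t) := by group
      _ = s * t⁻¹ * t⁻¹ * (s * t * s) * t⁻¹ * s := by rw [r4]; group
      _ = s * (t⁻¹ * t⁻¹ * t⁻¹) * s * t⁻¹ * t⁻¹ * s := by rw [r5]; group
      _ = s * t * t * s * t⁻¹ * t⁻¹ * s := by rw [r3']; group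
  have e11b : s * t * t * s * t⁻¹ * t⁻¹ * s = t⁻¹ * (s * t⁻¹ * t⁻¹ * s * t * t * s) := by
    have h1 : (s * t * t * s * t⁻¹ * t⁻¹ * s) * (s * t⁻¹ * t⁻¹ * s * t * t * s) = t⁻¹ := by
      calc (s * t * t * s * t⁻¹ * t⁻¹ * s) * (s * t⁻¹ * t⁻¹ * s * t * t * s)
          = s * t * t * s * t⁻¹ * t⁻¹ * (s * s) * t⁻¹ * t⁻¹ * s * t * t * s := by group
        _ = s * t * t * s * (t⁻¹ * t⁻¹ * t⁻¹) * t⁻¹ * s * t * t * s := by rw [hs]; group
        _ = s * t * (t * s * t) * s * t * t * s := by rw [r3']; group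
        _ = s * t * s * t⁻¹ * (s * s) * t * t * s := by rw [r4]; group
        _ = (s * t * s) * t * s := by rw [hs]; group
        _ = t⁻¹ * (s * s) := by rw [r5]; group
        _ = t⁻¹ := by rw [hs, mul_one]
    have h2 : (s * t⁻¹ * t⁻¹ * s * t * t * s) * (s * t⁻¹ * t⁻¹ * s * t * t * s) = 1 := by
      calc (s * t⁻¹ * t⁻¹ * s * t * t * s) * (s * t⁻¹ * t⁻¹ * s * t * t * s)
          = s * t⁻¹ * t⁻¹ * s * t * t * (s * s) * t⁻¹ * t⁻¹ * s * t * t * s := by group
        _ = s * t⁻¹ * t⁻¹ * s * s * (t * t * s) := by rw [hs]; group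
        _ = s * t⁻¹ * t⁻¹ * (s * s) * (t * t * s) := by simp only [mul_assoc]
        _ = 1 := by rw [hs]; simp [mul_assoc, hs]
    calc s * t * t * s * t⁻¹ * t⁻¹ * s
        = (s * t * t * s * t⁻¹ * t⁻¹ * s) * ((s * t⁻¹ * t⁻¹ * s * t * t * s) *
            (s * t⁻¹ * t⁻¹ * s * t * t * s)) := by rw [h2, mul_one]
      _ = t⁻¹ * (s * t⁻¹ * t⁻¹ * s * t * t * s) := by rw [← mul_assoc, h1]
  have f8 : s * t⁻¹ * t⁻¹ * s * t * s = s * t * t * s * t⁻¹ := by
    calc s * t⁻¹ * t⁻¹ * s * t * s = s * t⁻¹ * t⁻¹ * (s * t * s) := by group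
      _ = s * (t⁻¹ * t⁻¹ * t⁻¹) * s * t⁻¹ := by rw [r5]; group
      _ = s * t * t * s * t⁻¹ := by rw [r3']; group
  have f10 : s * t * t * s * t⁻¹ * s = s * t⁻¹ * t⁻¹ * s * t := by
    calc s * t * t * s * t⁻¹ * s = s * t * t * (s * t⁻¹ * s) := by group
      _ = s * (t * t * t) * s * t := by rw [← r4]; group
      _ = s * t⁻¹ * t⁻¹ * s * t := by rw [r3]; group
  have key_t : ∀ i : Fin 12, ∃ (k : ℤ) (j : Fin 12), rep s t i * t = t ^ k * rep s t j := by
    intro i
    fin_cases i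
    · exact ⟨1, 0, by simp [rep]⟩
    · exact ⟨0, 2, by simp [rep]⟩
    · exact ⟨0, 3, by simp [rep]⟩
    · refine ⟨0, 4, ?_⟩
      change s * t * t * t = t ^ (0 : ℤ) * (s * t⁻¹ * t⁻¹)
      calc s * t * t * t = s * (t * t * t) := by group
        _ = t ^ (0 : ℤ) * (s * t⁻¹ * t⁻¹) := by rw [r3]; group
    · exact ⟨0, 5, by simp [rep]⟩
    · exact ⟨0, 1, by simp [rep]⟩
    · refine ⟨-1, 7, ?_⟩
      change s * t * t * s * t = t ^ (-1 : ℤ) * (s * t⁻¹ * t⁻¹ * s)
      rw [e6, zpow_neg_one]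
    · exact ⟨0, 8, by simp [rep]⟩
    · exact ⟨0, 9, by simp [rep]⟩
    · refine ⟨1, 10, ?_⟩
      change s * t⁻¹ * t⁻¹ * s * t * t * t = t ^ (1 : ℤ) * (s * t * t * s * t⁻¹)
      rw [e9, zpow_one]
    · exact ⟨0, 6, by simp [rep]⟩
    · refine ⟨-1, 11, ?_⟩
      change s * t⁻¹ * t⁻¹ * s * t * t * s * t =
        t ^ (-1 : ℤ) * (s * t⁻¹ * t⁻¹ * s * t * t * s)
      rw [e11a, e11b, zpow_neg_one]
  have key_s : ∀ i : Fin 12, ∃ (k : ℤ) (j : Fin 12), rep s t i * s = t ^ k * rep s t j := by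
    have hss : ∀ g : G, g * s * s = g := fun g => by rw [mul_assoc, hs, mul_one]
    intro i
    fin_cases i
    · exact ⟨0, 1, by simp [rep]⟩
    · exact ⟨0, 0, by simp [rep, hs]⟩
    · refine ⟨-1, 5, ?_⟩
      change s * t * s = t ^ (-1 : ℤ) * (s * t⁻¹)
      rw [r5, zpow_neg_one, mul_assoc]
    · exact ⟨0, 6, by simp [rep]⟩
    · exact ⟨0, 7, by simp [rep]⟩
    · refine ⟨1, 2, ?_⟩
      change s * t⁻¹ * s = t ^ (1 : ℤ) * (s * t)
      rw [← r4, zpow_one, mul_assoc]
    · refine ⟨0, 3, ?_⟩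
      change s * t * t * s * s = t ^ (0 : ℤ) * (s * t * t)
      rw [hss, zpow_zero, one_mul]
    · refine ⟨0, 4, ?_⟩
      change s * t⁻¹ * t⁻¹ * s * s = t ^ (0 : ℤ) * (s * t⁻¹ * t⁻¹)
      rw [hss, zpow_zero, one_mul]
    · refine ⟨0, 10, ?_⟩
      change s * t⁻¹ * t⁻¹ * s * t * s = t ^ (0 : ℤ) * (s * t * t * s * t⁻¹)
      rw [f8, zpow_zero, one_mul]
    · exact ⟨0, 11, by simp [rep]⟩
    · refine ⟨0, 8, ?_⟩
      change s * t * t * s * t⁻¹ * s = t ^ (0 : ℤ) * (s * t⁻¹ * t⁻¹ * s * t)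
      rw [f10, zpow_zero, one_mul]
    · refine ⟨0, 9, ?_⟩
      change s * t⁻¹ * t⁻¹ * s * t * t * s * s = t ^ (0 : ℤ) * (s * t⁻¹ * t⁻¹ * s * t * t)
      rw [hss, zpow_zero, one_mul]
  have t5 : t ^ 5 = 1 := by
    calc t ^ 5 = t * t * t * t * t := by simp [pow_succ]
      _ = 1 := ht
  -- the map from `Fin 5 × Fin 12` is onto
  let f : Fin 5 × Fin 12 → G := fun p => t ^ (p.1 : ℕ) * rep s t p.2
  have hf : ∀ (k : ℤ) (i : Fin 12), ∃ p, f p = t ^ k * rep s t i := by
    intro k i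
    have hk : 0 ≤ k % 5 := Int.emod_nonneg _ (by norm_num)
    have hk5 : k % 5 < 5 := Int.emod_lt_of_pos _ (by norm_num)
    refine ⟨(⟨(k % 5).toNat, by omega⟩, i), ?_⟩
    change t ^ ((k % 5).toNat) * rep s t i = t ^ k * rep s t i
    congr 1
    rw [← zpow_natCast, Int.toNat_of_nonneg hk]
    have : t ^ k = t ^ (k % 5) * (t ^ (5 : ℤ)) ^ (k / 5) := by
      rw [← zpow_mul, ← zpow_add]
      congr 1
      omega
    rw [this]
    have h5 : t ^ (5 : ℤ) = 1 := by exact_mod_cast t5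
    rw [h5, one_zpow, mul_one]
  have hmem : ∀ g : G, ∃ (k : ℤ) (i : Fin 12), g = t ^ k * rep s t i := by
    intro g
    have hg : g ∈ Subgroup.closure {s, t} := by rw [hcl]; trivial
    have step : ∀ (h : G), h = s ∨ h = t → ∀ (x : G),
        (∃ (k : ℤ) (i : Fin 12), x = t ^ k * rep s t i) →
        ∃ (k : ℤ) (i : Fin 12), x * h = t ^ k * rep s t i := by
      rintro h (rfl | rfl) x ⟨k, i, rfl⟩
      · obtain ⟨l, j, e⟩ := key_s i
        exact ⟨k + l, j, by rw [mul_assoc, e, ← mul_assoc, ← zpow_add]⟩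
      · obtain ⟨l, j, e⟩ := key_t i
        exact ⟨k + l, j, by rw [mul_assoc, e, ← mul_assoc, ← zpow_add]⟩
    induction hg using Subgroup.closure_induction_right with
    | one => exact ⟨0, 0, by simp [rep]⟩
    | mul_right x hx y hy ih =>
      exact step y (by simpa using hy) x ih
    | mul_inv_cancel x hx y hy ih =>
      rcases (by simpa using hy : y = s ∨ y = t) with rfl | rfl
      · rw [hsi]; exact step _ (Or.inl rfl) x ih
      · have hti : y⁻¹ = y * y * y * y := by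
          calc y⁻¹ = y⁻¹ * (y * y * y * y * y) := by rw [ht, mul_one]
            _ = y * y * y * y := by group
        rw [hti]
        have := step _ (Or.inr rfl) _ (step _ (Or.inr rfl) _ (step _ (Or.inr rfl) _
          (step _ (Or.inr rfl) x ih)))
        simpa [mul_assoc] using this
  have hsurj : Function.Surjective f := by
    intro g
    obtain ⟨k, i, rfl⟩ := hmem g
    exact hf k i
  calc Nat.card G ≤ Nat.card (Fin 5 × Fin 12) := Nat.card_le_card_of_surjective f hsurj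
    _ = 60 := by simp

end Icosa

/-! ### The commutator words -/

/-- The inverse of `x y z` in the free group on `x, y, z`. -/
def a0 : FreeGroup (Fin 3) :=
  (FreeGroup.of 0 * FreeGroup.of 1 * FreeGroup.of 2)⁻¹

/-- For every word `b` a commutator word `u` with
`x y z u = a⁻² (a ^ b)⁻¹ a (a ^ b)`, where `a = (x y z)⁻¹` and `a ^ b = b⁻¹ a b`. -/
def word (b : FreeGroup (Fin 3)) : FreeGroup (Fin 3) :=
  a0 * ((a0 * a0)⁻¹ * ((b⁻¹ * a0 * b)⁻¹ * a0 * (b⁻¹ * a0 * b)))

theorem word_mem (b : FreeGroup (Fin 3)) : word b ∈ commutator (FreeGroup (Fin 3)) := by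
  rw [← Abelianization.ker_of, MonoidHom.mem_ker]
  simp only [word, map_mul, map_inv]
  have h : ∀ α β : Abelianization (FreeGroup (Fin 3)),
      α * ((α * α)⁻¹ * ((β⁻¹ * α * β)⁻¹ * α * (β⁻¹ * α * β))) = 1 := by
    intro α β
    have e : β⁻¹ * α * β = α := by rw [mul_comm β⁻¹ α, inv_mul_cancel_right]
    rw [e]; group
  exact h _ _

theorem admissible_word_iff (p q r : ℕ) (b : FreeGroup (Fin 3)) (n : ℕ) :
    Admissible p q r (word b) n ↔ Admissible p q r 1 n := by
  constructor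
  · rintro ⟨ξ, η, ζ, hcl, hp, hq, hr, h⟩
    refine ⟨ξ, η, ζ, hcl, hp, hq, hr, ?_⟩
    set β := FreeGroup.lift ![ξ, η, ζ] b with hβ
    have ha : FreeGroup.lift ![ξ, η, ζ] a0 = (ξ * η * ζ)⁻¹ := by simp [a0]
    simp only [word, map_mul, map_inv, ha, ← hβ] at h
    have h1 : (ξ * η * ζ)⁻¹ = 1 := by
      refine eq_one_of_conj (ξ * η * ζ)⁻¹ β ?_
      rw [mul_inv_cancel_left, inv_mul_eq_one] at h
      rw [← h, pow_two]
    have h2 : ξ * η * ζ = 1 := inv_eq_one.mp h1
    rw [h2, map_one, mul_one]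
  · rintro ⟨ξ, η, ζ, hcl, hp, hq, hr, h⟩
    refine ⟨ξ, η, ζ, hcl, hp, hq, hr, ?_⟩
    rw [map_one, mul_one] at h
    have ha : FreeGroup.lift ![ξ, η, ζ] a0 = 1 := by
      have : FreeGroup.lift ![ξ, η, ζ] a0 = (ξ * η * ζ)⁻¹ := by simp [a0]
      rw [this, h, inv_one]
    simp only [word, map_mul, map_inv, h, ha]
    group

/-! ### The admissible degrees for `2, 3, 5` and `u = 1` -/

theorem adm_le (n : ℕ) (hn : 3 ≤ n) (h : Admissible 2 3 5 1 n) : n = 5 := by
  obtain ⟨x, y, z, hcl, hx, hy, hz, h⟩ := h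
  rw [map_one, mul_one] at h
  have : Nontrivial (Fin n) := Fin.nontrivial_iff_two_le.mpr (by omega)
  have hcard : 2 * Nat.card (alternatingGroup (Fin n)) = n.factorial := by
    rw [two_mul_nat_card_alternatingGroup, Nat.card_perm, Nat.card_fin]
  -- `y = x⁻¹ z⁻¹`
  have hy' : y = x⁻¹ * z⁻¹ := by
    calc y = x⁻¹ * (x * y * z) * z⁻¹ := by group
      _ = x⁻¹ * z⁻¹ := by rw [h, mul_one]
  have hxx : x * x = 1 := by rw [← pow_two, hx]
  have hxi : x⁻¹ = x := inv_eq_of_mul_eq_one_left hxx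
  have hle : Nat.card (alternatingGroup (Fin n)) ≤ 60 := by
    refine card_le x z⁻¹ hxx ?_ ?_ ?_
    · have : (z⁻¹) ^ 5 = 1 := by rw [inv_pow, hz, inv_one]
      simpa [pow_succ] using this
    · have : (x * z⁻¹) ^ 3 = 1 := by rw [← hy, hy', hxi]
      simpa [pow_succ, mul_assoc] using this
    · rw [eq_top_iff, ← hcl, Subgroup.closure_le]
      have hxm : x ∈ Subgroup.closure {x, z⁻¹} := Subgroup.subset_closure (by simp)
      have hzm : z⁻¹ ∈ Subgroup.closure {x, z⁻¹} := Subgroup.subset_closure (by simp)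
      rintro w (rfl | rfl | rfl)
      · exact hxm
      · rw [hy']; exact mul_mem (inv_mem hxm) hzm
      · exact inv_inv w ▸ inv_mem hzm
  have hn6 : n < 6 := by
    by_contra hcon
    have : Nat.factorial 6 ≤ n.factorial := Nat.factorial_le (by omega)
    have h720 : Nat.factorial 6 = 720 := rfl
    omega
  by_contra hn5
  -- now `n = 3` or `n = 4`
  have hz1 : z = 1 := by
    have h1 : orderOf z ∣ 5 := orderOf_dvd_of_pow_eq_one hz
    have h2 : orderOf z ∣ Nat.card (alternatingGroup (Fin n)) := orderOf_dvd_natCard z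
    have h3 : orderOf z ∣ n.factorial := by rw [← hcard]; exact h2.mul_left 2
    have h4 : Nat.Coprime 5 n.factorial := by
      interval_cases n
      · decide
      · decide
      · exact absurd rfl hn5
    exact orderOf_eq_one_iff.mp (Nat.eq_one_of_dvd_coprimes h4 h1 h3)
  have hx1 : x = 1 := by
    have e : y = x := by rw [hy', hz1, hxi, inv_one, mul_one]
    have : x ^ 3 = 1 := by rw [← e]; exact hy
    calc x = x ^ 3 * (x ^ 2)⁻¹ := by group
      _ = 1 := by rw [this, hx]; group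
  have hy1 : y = 1 := by rw [hy', hz1, hx1]; group
  rw [hx1, hy1, hz1] at hcl
  have hbot : (⊥ : Subgroup (alternatingGroup (Fin n))) = ⊤ := by
    rw [← hcl, eq_comm, Subgroup.closure_eq_bot_iff]; simp
  have hc1 : Nat.card (alternatingGroup (Fin n)) = 1 := by
    rw [← Subgroup.card_top, ← hbot, Subgroup.card_bot]
  rw [hc1] at hcard
  have : Nat.factorial 3 ≤ n.factorial := Nat.factorial_le hn
  have h6 : Nat.factorial 3 = 6 := rfl
  omega

/-- Generators of the alternating group of degree five. -/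
def gx : Equiv.Perm (Fin 5) := Equiv.swap 0 1 * Equiv.swap 2 3
def gz : Equiv.Perm (Fin 5) := finRotate 5
def gy : Equiv.Perm (Fin 5) := gx⁻¹ * gz⁻¹

theorem adm_five : Admissible 2 3 5 1 5 := by
  have hgx : gx ∈ alternatingGroup (Fin 5) := by
    rw [Equiv.Perm.mem_alternatingGroup]; decide
  have hgz : gz ∈ alternatingGroup (Fin 5) := by
    rw [Equiv.Perm.mem_alternatingGroup]; decide
  have hgy : gy ∈ alternatingGroup (Fin 5) := mul_mem (inv_mem hgx) (inv_mem hgz)
  refine ⟨⟨gx, hgx⟩, ⟨gy, hgy⟩, ⟨gz, hgz⟩, ?_, ?_, ?_, ?_, ?_⟩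
  · set H := Subgroup.closure
      ({⟨gx, hgx⟩, ⟨gy, hgy⟩, ⟨gz, hgz⟩} : Set (alternatingGroup (Fin 5))) with hH
    have ox : orderOf gx = 2 := by
      refine orderOf_eq_prime ?_ ?_ <;> decide
    have oy : orderOf gy = 3 := by
      refine orderOf_eq_prime ?_ ?_ <;> decide
    have oz : orderOf gz = 5 := by
      have : Fact (Nat.Prime 5) := ⟨by norm_num⟩
      refine orderOf_eq_prime ?_ ?_ <;> decide
    have dvd : ∀ (g : Equiv.Perm (Fin 5)) (hg : g ∈ alternatingGroup (Fin 5)),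
        (⟨g, hg⟩ : alternatingGroup (Fin 5)) ∈ H → orderOf g ∣ Nat.card H := by
      intro g hg hm
      have h1 : orderOf (⟨⟨g, hg⟩, hm⟩ : H) ∣ Nat.card H := orderOf_dvd_natCard _
      rwa [Subgroup.orderOf_mk, Subgroup.orderOf_mk] at h1
    have d2 : 2 ∣ Nat.card H := ox ▸ dvd gx hgx (Subgroup.subset_closure (by simp))
    have d3 : 3 ∣ Nat.card H := oy ▸ dvd gy hgy (Subgroup.subset_closure (by simp))
    have d5 : 5 ∣ Nat.card H := by
      have := dvd gz hgz (Subgroup.subset_closure (by simp))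
      rwa [oz] at this
    have d30 : 30 ∣ Nat.card H := by omega
    have c60 : Nat.card (alternatingGroup (Fin 5)) = 60 := by
      have : 2 * Nat.card (alternatingGroup (Fin 5)) = Nat.factorial 5 := by
        rw [two_mul_nat_card_alternatingGroup, Nat.card_perm, Nat.card_fin]
      have h120 : Nat.factorial 5 = 120 := rfl
      omega
    have hmul : Nat.card H * H.index = 60 := by rw [Subgroup.card_mul_index, c60]
    have hidx : H.index = 1 ∨ H.index = 2 := by
      obtain ⟨k, hk⟩ := d30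
      rw [hk] at hmul
      have h1 : k * H.index = 2 := by nlinarith [hmul]
      have h2 : H.index ∣ 2 := ⟨k, by rw [mul_comm]; exact h1.symm⟩
      exact (Nat.dvd_prime Nat.prime_two).mp h2
    rcases hidx with h1 | h2
    · exact Subgroup.index_eq_one.mp h1
    · have hnorm : H.Normal := Subgroup.normal_of_index_eq_two h2
      have := alternatingGroup.isSimpleGroup (α := Fin 5) (by simp)
      rcases IsSimpleGroup.eq_bot_or_eq_top_of_normal H hnorm with hb | ht
      · exfalso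
        rw [hb, Subgroup.card_bot] at d2
        omega
      · exact ht
  · apply Subtype.ext; change gx ^ 2 = 1; decide
  · apply Subtype.ext; change gy ^ 3 = 1; decide
  · apply Subtype.ext; change gz ^ 5 = 1; decide
  · rw [map_one, mul_one]
    apply Subtype.ext
    change gx * (gx⁻¹ * gz⁻¹) * gz = 1
    group

/-! ### Infinitely many of the words are different -/

/-- The upper triangular matrix used to separate the words. -/
def matA : Matrix.SpecialLinearGroup (Fin 2) ℤ := ⟨!![1, 1; 0, 1], by simp⟩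
def matL : Matrix.SpecialLinearGroup (Fin 2) ℤ := ⟨!![1, 0; 1, 1], by simp⟩

theorem matL_pow (k : ℕ) : ((matL ^ k : Matrix.SpecialLinearGroup (Fin 2) ℤ) :
    Matrix (Fin 2) (Fin 2) ℤ) = !![1, 0; (k : ℤ), 1] := by
  induction k with
  | zero => ext i j; fin_cases i <;> fin_cases j <;> simp
  | succ k ih =>
    rw [pow_succ, Matrix.SpecialLinearGroup.coe_mul, ih]
    ext i j
    fin_cases i <;> fin_cases j <;> simp [matL, Matrix.mul_apply, Fin.sum_univ_two]

/-- A homomorphism to `SL(2, ℤ)` with `x y z ↦ A⁻¹` and `y ↦ L`. -/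
def toSL : FreeGroup (Fin 3) →* Matrix.SpecialLinearGroup (Fin 2) ℤ :=
  FreeGroup.lift ![matA⁻¹ * matL⁻¹, matL, 1]

theorem word_injective :
    Function.Injective fun k : ℕ => word (FreeGroup.of 1 ^ k) := by
  intro k l hkl
  have h := congrArg (fun g => (toSL g : Matrix (Fin 2) (Fin 2) ℤ) 1 0) hkl
  have ha : toSL a0 = matA := by simp [toSL, a0]
  have hy : ∀ k : ℕ, toSL (FreeGroup.of 1 ^ k) = matL ^ k := by simp [toSL]
  have key : ∀ k : ℕ,
      (toSL (word (FreeGroup.of 1 ^ k)) : Matrix (Fin 2) (Fin 2) ℤ) 1 0 = - (k : ℤ) ^ 4 := by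
    intro k
    simp only [word, map_mul, map_inv, ha, hy, Matrix.SpecialLinearGroup.coe_mul,
      Matrix.SpecialLinearGroup.coe_inv, matL_pow]
    simp only [matA, Matrix.adjugate_fin_two, Matrix.mul_apply, Fin.sum_univ_two]
    simp
    ring
  simp only [key] at h
  have h4 : (k : ℤ) ^ 4 = (l : ℤ) ^ 4 := by linarith
  have h5 : k ^ 4 = l ^ 4 := by exact_mod_cast h4
  exact Nat.pow_left_injective (n := 4) (by norm_num) h5

theorem word_one : word 1 = 1 := by
  simp only [word]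
  group

/-- **Main result.**  (i) For any exponents `p, q, r` and any word `b`, the commutator word
`word b` has the same admissible degrees as the trivial word.  (ii) The words `word b` form an
infinite set of commutator words, containing the trivial word.  (iii) For `2, 3, 5` and each of
the words `word b` the only admissible degree is `5`.  (iv) Hence it is not true that for all
distinct primes and all commutator words infinitely many degrees are admissible. -/
theorem result :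
    (∀ (p q r : ℕ) (b : FreeGroup (Fin 3)) (n : ℕ),
      Admissible p q r (word b) n ↔ Admissible p q r 1 n) ∧
    (Set.range word).Infinite ∧
    (∀ b, word b ∈ commutator (FreeGroup (Fin 3))) ∧ word 1 = 1 ∧
    (∀ (b : FreeGroup (Fin 3)) (n : ℕ), 3 ≤ n → (Admissible 2 3 5 (word b) n ↔ n = 5)) ∧
    ¬ ∀ p q r : ℕ, p.Prime → q.Prime → r.Prime → p ≠ q → p ≠ r → q ≠ r →
      ∀ u ∈ commutator (FreeGroup (Fin 3)), {n : ℕ | 3 ≤ n ∧ Admissible p q r u n}.Infinite := by
  have h4 : ∀ (b : FreeGroup (Fin 3)) (n : ℕ), 3 ≤ n →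
      (Admissible 2 3 5 (word b) n ↔ n = 5) := by
    intro b n hn
    rw [admissible_word_iff]
    constructor
    · exact adm_le n hn
    · rintro rfl; exact adm_five
  refine ⟨admissible_word_iff, ?_, word_mem, word_one, h4, ?_⟩
  · exact (Set.infinite_range_of_injective word_injective).mono
      (by rintro _ ⟨k, rfl⟩; exact ⟨_, rfl⟩)
  · intro h
    have := h 2 3 5 (by norm_num) (by norm_num) (by norm_num) (by norm_num) (by norm_num)
      (by norm_num) (word 1) (word_mem 1)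
    refine this ((Set.finite_singleton 5).subset ?_)
    rintro n ⟨hn, hadm⟩
    exact (h4 1 n hn).mp hadm

end Pool.Agent.Results.MP_73c65d_al.OnlyDegreeFive
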